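import Pool.Agent.P.MP_00bf54_lc.Defs
import Pool.Agent.Lib.Comp.PrimFun

/-! The order of Cantor normal form codes is a computable well-order of type `ω^ω`. -/

set_option autoImplicit false

namespace Pool.Agent.P.MP_00bf54_lc

open Ordinal Pool.Agent.Lib.Comp

lemma cnf_cons {l : List ℕ} (h : l ≠ []) (c : ℕ) : cnf (c :: l) = ω * cnf l + c := by
  cases l with
  | nil => exact absurd rfl h
  | cons d l => rfl

lemma cnf_pos : ∀ {l : List ℕ}, l ≠ [] → 0 < cnf l
  | [], h => absurd rfl h
  | [c], _ => by simp [cnf]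
  | c :: d :: l, _ => by
    have := cnf_pos (l := d :: l) (by simp)
    rw [cnf]
    exact lt_of_lt_of_le (mul_pos omega0_pos this) le_self_add

lemma omega_step {a b : Ordinal} (h : a < b) (c d : ℕ) : ω * a + c < ω * b + d := by
  calc ω * a + c < ω * a + ω := by gcongr; exact natCast_lt_omega0 c
    _ = ω * (a + 1) := by rw [mul_add_one]
    _ ≤ ω * b := by gcongr; exact Order.add_one_le_of_lt h
    _ ≤ _ := le_self_add

lemma cnf_lt_pow : ∀ l : List ℕ, cnf l < ω ^ l.length
  | [] => by simp [cnf]
  | [c] => by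
    simp only [cnf, List.length_singleton, pow_one]
    exact_mod_cast natCast_lt_omega0 (c + 1)
  | c :: d :: l => by
    have := omega_step (cnf_lt_pow (d :: l)) c 0
    rw [cnf, List.length_cons, pow_succ']
    simpa using this

lemma pow_le_cnf : ∀ (c : ℕ) (l : List ℕ), ω ^ l.length ≤ cnf (c :: l)
  | c, [] => by simp [cnf]
  | c, d :: l => by
    rw [cnf, List.length_cons, pow_succ']
    exact le_trans (by gcongr; exact pow_le_cnf d l) le_self_add

lemma cnf_lt_of_length {a b : List ℕ} (h : a.length < b.length) : cnf a < cnf b := by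
  cases b with
  | nil => simp at h
  | cons c l =>
    refine (cnf_lt_pow a).trans_le (le_trans ?_ (pow_le_cnf c l))
    exact pow_le_pow_right₀ one_lt_omega0.le (by simpa [Nat.lt_succ_iff] using h)

lemma cnf_le_of_le : ∀ {a b : List ℕ}, a.length = b.length →
    (∀ e, a.getD e 0 ≤ b.getD e 0) → cnf a ≤ cnf b
  | [], _, _, _ => by simp [cnf]
  | [c], [d], _, h => by
    have : c ≤ d := by simpa using h 0
    simp only [cnf]; gcongr
  | c :: c' :: l, d :: d' :: m, hl, h => by
    have h0 : c ≤ d := by simpa using h 0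
    have := cnf_le_of_le (a := c' :: l) (b := d' :: m) (by simpa using hl)
      (fun e => by simpa using h (e + 1))
    rw [cnf, cnf]; gcongr
  | [_], [], hl, _ => by simp at hl
  | [_], _ :: _ :: _, hl, _ => by simp at hl
  | _ :: _ :: _, [], hl, _ => by simp at hl
  | _ :: _ :: _, [_], hl, _ => by simp at hl

lemma cnf_lt_of_lex : ∀ {a b : List ℕ} (i : ℕ), a.length = b.length → a.getD i 0 < b.getD i 0 →
    (∀ e, i < e → a.getD e 0 ≤ b.getD e 0) → cnf a < cnf b
  | [], [], _, _, h, _ => by simp at h
  | [c], [d], 0, _, h, _ => by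
    have : c < d := by simpa using h
    simp only [cnf]; exact_mod_cast (by omega : c + 1 < d + 1)
  | [c], [d], i + 1, _, h, _ => by simp at h
  | c :: c' :: l, d :: d' :: m, 0, hl, h, h2 => by
    have h0 : c < d := by simpa using h
    have := cnf_le_of_le (a := c' :: l) (b := d' :: m) (by simpa using hl)
      (fun e => by simpa using h2 (e + 1) (by omega))
    rw [cnf, cnf]
    calc ω * cnf (c' :: l) + c < ω * cnf (c' :: l) + d := by gcongr
      _ ≤ _ := by gcongr
  | c :: c' :: l, d :: d' :: m, i + 1, hl, h, h2 => by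
    have := cnf_lt_of_lex (a := c' :: l) (b := d' :: m) i (by simpa using hl) (by simpa using h)
      (fun e he => by simpa using h2 (e + 1) (by omega))
    rw [cnf, cnf]
    exact omega_step this c d
  | [], _ :: _, _, hl, _, _ => by simp at hl
  | [_], [], _, hl, _, _ => by simp at hl
  | [_], _ :: _ :: _, _, hl, _, _ => by simp at hl
  | _ :: _ :: _, [], _, hl, _, _ => by simp at hl
  | _ :: _ :: _, [_], _, hl, _, _ => by simp at hl

/-- The combinatorial form of the comparison. -/
def LtL (a b : List ℕ) : Prop :=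
  a.length < b.length ∨ (a.length = b.length ∧
    ∃ i < a.length, a.getD i 0 < b.getD i 0 ∧ ∀ e < a.length, i < e → a.getD e 0 = b.getD e 0)

lemma LtL.cnf_lt {a b : List ℕ} (h : LtL a b) : cnf a < cnf b := by
  rcases h with h | ⟨hl, i, _, h1, h2⟩
  · exact cnf_lt_of_length h
  · refine cnf_lt_of_lex i hl h1 fun e he => ?_
    by_cases h3 : e < a.length
    · exact (h2 e h3 he).le
    · simp [List.getD_eq_getElem?_getD, List.getElem?_eq_none (not_lt.1 h3)]

lemma ltL_trichotomy (a b : List ℕ) : LtL a b ∨ a = b ∨ LtL b a := by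
  classical
  rcases lt_trichotomy a.length b.length with h | h | h
  · exact Or.inl (Or.inl h)
  · by_cases h1 : ∃ i, i < a.length ∧ a.getD i 0 ≠ b.getD i 0
    · have hne : ((Finset.range a.length).filter (fun i => a.getD i 0 ≠ b.getD i 0)).Nonempty := by
        obtain ⟨i, h2, h3⟩ := h1
        exact ⟨i, by simp only [Finset.mem_filter, Finset.mem_range]; exact ⟨h2, h3⟩⟩
      obtain ⟨i, hi, hmax⟩ := Finset.exists_max_image _ id hne
      simp only [Finset.mem_filter, Finset.mem_range, id] at hi hmax
      have h4 : ∀ e < a.length, i < e → a.getD e 0 = b.getD e 0 := by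
        intro e he hie
        by_contra h5
        exact absurd (hmax e ⟨he, h5⟩) (by omega)
      rcases lt_or_gt_of_ne hi.2 with h5 | h5
      · exact Or.inl (Or.inr ⟨h, i, hi.1, h5, h4⟩)
      · exact Or.inr (Or.inr (Or.inr ⟨h.symm, i, h ▸ hi.1, h5,
          fun e he hie => (h4 e (h ▸ he) hie).symm⟩))
    · refine Or.inr (Or.inl (List.ext_getElem h fun i h2 h3 => ?_))
      push Not at h1
      simpa [List.getD_eq_getElem?_getD, h2, h3] using h1 i h2
  · exact Or.inr (Or.inr (Or.inl h))

lemma cnf_lt_iff (a b : List ℕ) : cnf a < cnf b ↔ LtL a b := by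
  refine ⟨fun h => ?_, LtL.cnf_lt⟩
  rcases ltL_trichotomy a b with h1 | rfl | h1
  · exact h1
  · exact absurd h (lt_irrefl _)
  · exact absurd h (not_lt.2 h1.cnf_lt.le)

lemma cnf_injective : Function.Injective cnf := by
  intro a b h
  rcases ltL_trichotomy a b with h1 | h1 | h1
  · exact absurd h h1.cnf_lt.ne
  · exact h1
  · exact absurd h h1.cnf_lt.ne'

lemma rank_injective : Function.Injective rank :=
  cnf_injective.comp (Denumerable.eqv (List ℕ)).symm.injective

lemma exists_cnf : ∀ (n : ℕ) (o : Ordinal.{0}), o < ω ^ n → ∃ l, cnf l = o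
  | 0, o, h => ⟨[], by simpa [cnf, eq_comm] using h⟩
  | n + 1, o, h => by
    have h1 : o / ω < ω ^ n := by
      rw [← lt_mul_iff_div_lt omega0_ne_zero, ← pow_succ']; exact h
    obtain ⟨l, hl⟩ := exists_cnf n _ h1
    obtain ⟨c, hc⟩ := lt_omega0.1 (mod_lt o omega0_ne_zero)
    have h2 := div_add_mod o ω
    rw [← hl, hc] at h2
    by_cases h3 : l = []
    · subst h3
      simp only [cnf, mul_zero, zero_add] at h2
      cases c with
      | zero => exact ⟨[], by simpa [cnf] using h2⟩
      | succ c => exact ⟨[c], by simpa [cnf] using h2⟩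
    · exact ⟨c :: l, by rw [cnf_cons h3, h2]⟩

lemma range_rank : Set.range rank = Set.Iio (ω ^ ω) := by
  ext o
  constructor
  · rintro ⟨n, rfl⟩
    refine (cnf_lt_pow _).trans_le ?_
    rw [← opow_natCast]
    exact opow_le_opow_right omega0_pos (natCast_lt_omega0 _).le
  · intro h
    obtain ⟨n, hn⟩ : ∃ n : ℕ, o < ω ^ n := by
      have h1 : o < ω ^ ω := h
      rw [lt_opow_of_isSuccLimit omega0_ne_zero isSuccLimit_omega0] at h1
      obtain ⟨c, hc, h2⟩ := h1
      obtain ⟨n, rfl⟩ := lt_omega0.1 hc
      exact ⟨n, by rwa [← opow_natCast]⟩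
    obtain ⟨l, hl⟩ := exists_cnf n o hn
    exact ⟨Encodable.encode l, by rw [rank, Denumerable.ofNat_encode, hl]⟩

/-- Boolean form of the comparison. -/
def ltLb (a b : List ℕ) : Bool :=
  ltb a.length b.length || (eqb a.length b.length &&
    (List.range a.length).any fun i => ltb (a.getD i 0) (b.getD i 0) &&
      (List.range a.length).all fun e => leb e i || eqb (a.getD e 0) (b.getD e 0))

lemma ltLb_iff (a b : List ℕ) : ltLb a b = true ↔ LtL a b := by
  simp only [ltLb, LtL, Bool.or_eq_true, Bool.and_eq_true, ltb_true, eqb_true, leb_true,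
    List.any_eq_true, List.all_eq_true, List.mem_range]
  refine or_congr Iff.rfl (and_congr Iff.rfl (exists_congr fun i => and_congr Iff.rfl
    (and_congr Iff.rfl (forall₂_congr fun e _ => ?_))))
  rw [← not_lt, or_iff_not_imp_left, not_not]

lemma rank_computable : ComputablePred (fun p : ℕ × ℕ => rank p.1 < rank p.2) := by
  have h0 : Primrec (fun n : ℕ => ((Encodable.decode n : Option (List ℕ)).getD [])) := by fun_prop
  have h1 : Primrec (fun p : List ℕ × List ℕ => ltLb p.1 p.2) := by
    unfold ltLb; fun_prop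
  have h2 : Primrec (fun p : ℕ × ℕ => ltLb ((Encodable.decode p.1 : Option (List ℕ)).getD [])
      ((Encodable.decode p.2 : Option (List ℕ)).getD [])) :=
    h1.comp ((h0.comp Primrec.fst).pair (h0.comp Primrec.snd))
  rw [ComputablePred.computable_iff]
  refine ⟨_, h2.to_comp, ?_⟩
  ext p
  rw [ltLb_iff, rank, rank, cnf_lt_iff]
  have : ∀ n, (Encodable.decode n : Option (List ℕ)).getD [] = Denumerable.ofNat (List ℕ) n := by
    intro n
    have := Denumerable.decode_eq_ofNat (List ℕ) n
    exact (congrArg (fun o => Option.getD o []) this)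
  rw [this, this]

end Pool.Agent.P.MP_00bf54_lc
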