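import Pool.Agent.P.MP_00bf54_lc.Cnf

/-! Covers of lower sets of `ℕ^k` by coordinate cones and their ordinal rank. -/

set_option autoImplicit false

namespace Pool.Agent.P.MP_00bf54_lc

open Ordinal Pool.Agent.Lib.Comp

@[fun_prop] theorem pr_flatMap {α β σ : Type*} [Primcodable α] [Primcodable β] [Primcodable σ]
    {f : α → List β} {g : α → β → List σ} (hf : Primrec f)
    (hg : Primrec (fun p : α × β => g p.1 p.2)) : Primrec (fun x => (f x).flatMap (g x)) :=
  Primrec.list_flatMap hf hg

/-- Sum of a list, in a form suited to primitive recursion. -/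
def sumL (l : List ℕ) : ℕ := l.foldr (fun a r => a + r) 0

lemma sumL_eq (l : List ℕ) : sumL l = l.sum := by
  induction l with
  | nil => rfl
  | cons a l ih => simp [sumL] at ih ⊢; exact ih

@[fun_prop] theorem pr_sumL : Primrec sumL := by unfold sumL; fun_prop

/-- A cone: entry `0` is a free coordinate, entry `t + 1` fixes the coordinate to `t`. -/
def InCone (k : ℕ) (s : List ℕ) (y : ℕ → ℕ) : Prop :=
  ∀ i < k, s.getD i 0 = 0 ∨ s.getD i 0 = y i + 1

/-- The cone meets the upper set generated by `x`. -/
def hits (k : ℕ) (x s : List ℕ) : Bool :=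
  (List.range k).all fun i => eqb (s.getD i 0) 0 || ltb (x.getD i 0) (s.getD i 0)

/-- Fix coordinate `i` to the value `t`. -/
def upd (k : ℕ) (s : List ℕ) (i t : ℕ) : List ℕ :=
  (List.range k).map fun j => cond (eqb j i) (t + 1) (s.getD j 0)

/-- Smaller cones covering the part of a cone outside the upper set generated by `x`. -/
def split (k : ℕ) (x s : List ℕ) : List (List ℕ) :=
  (List.range k).flatMap fun i =>
    cond (eqb (s.getD i 0) 0) ((List.range (x.getD i 0)).map fun t => upd k s i t) []

/-- Refinement of a cover. -/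
def refine (k : ℕ) (x : List ℕ) (L : List (List ℕ)) : List (List ℕ) :=
  L.flatMap fun s => cond (hits k x s) (split k x s) [s]

/-- The cover attached to a list of rewriting rules. -/
def cover (k : ℕ) (P : List (List ℕ × List ℕ)) : List (List ℕ) :=
  P.foldr (fun p L => refine k p.1 L) [[]]

/-- Number of free coordinates. -/
def dim (k : ℕ) (s : List ℕ) : ℕ := sumL ((List.range k).map fun i => cond (eqb (s.getD i 0) 0) 1 0)

/-- Number of cones of a given dimension. -/
def cnt (k : ℕ) (L : List (List ℕ)) (d : ℕ) : ℕ := sumL (L.map fun s => cond (eqb (dim k s) d) 1 0)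

/-- The code of the ordinal attached to `(k, P)`. -/
def item (k : ℕ) (P : List (List ℕ × List ℕ)) : List ℕ :=
  Encodable.encode (k, P) :: ((List.range (k + 1)).map (cnt k (cover k P)) ++ [0])

@[fun_prop] lemma pr_hits : Primrec (fun p : ℕ × List ℕ × List ℕ => hits p.1 p.2.1 p.2.2) := by
  unfold hits; fun_prop

@[fun_prop] lemma pr_upd :
    Primrec (fun p : ℕ × List ℕ × ℕ × ℕ => upd p.1 p.2.1 p.2.2.1 p.2.2.2) := by
  unfold upd; fun_prop

@[fun_prop] lemma pr_split : Primrec (fun p : ℕ × List ℕ × List ℕ => split p.1 p.2.1 p.2.2) := by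
  unfold split; fun_prop

@[fun_prop] lemma pr_refine :
    Primrec (fun p : ℕ × List ℕ × List (List ℕ) => refine p.1 p.2.1 p.2.2) := by
  unfold refine; fun_prop

@[fun_prop] lemma pr_cover : Primrec (fun p : ℕ × List (List ℕ × List ℕ) => cover p.1 p.2) := by
  unfold cover; fun_prop

@[fun_prop] lemma pr_dim : Primrec (fun p : ℕ × List ℕ => dim p.1 p.2) := by
  unfold dim; fun_prop

@[fun_prop] lemma pr_cnt : Primrec (fun p : ℕ × List (List ℕ) × ℕ => cnt p.1 p.2.1 p.2.2) := by
  unfold cnt; fun_prop

@[fun_prop] lemma pr_item : Primrec (fun p : ℕ × List (List ℕ × List ℕ) => item p.1 p.2) := by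
  unfold item; fun_prop

lemma upd_getD {k : ℕ} (s : List ℕ) (i t : ℕ) {j : ℕ} (hj : j < k) :
    (upd k s i t).getD j 0 = if j = i then t + 1 else s.getD j 0 := by
  simp only [upd, List.getD_eq_getElem?_getD, List.getElem?_map, List.getElem?_range hj,
    Option.map_some, Option.getD_some, eqb]
  by_cases h : j = i <;> simp [h]

lemma dim_eq (k : ℕ) (s : List ℕ) :
    dim k s = ((Finset.range k).filter fun i => s.getD i 0 = 0).card := by
  rw [dim, sumL_eq, Finset.card_filter, ← List.sum_toFinset _ List.nodup_range,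
    List.toFinset_range]
  refine Finset.sum_congr rfl fun i _ => ?_
  by_cases h : s.getD i 0 = 0 <;> simp only [eqb, h, decide_true, decide_false, cond_true,
    cond_false, if_true, if_false]

lemma dim_le (k : ℕ) (s : List ℕ) : dim k s ≤ k := by
  rw [dim_eq]
  exact (Finset.card_filter_le _ _).trans (by simp)

lemma mem_split {k : ℕ} {x s s' : List ℕ} : s' ∈ split k x s ↔
    ∃ i < k, s.getD i 0 = 0 ∧ ∃ t < x.getD i 0, s' = upd k s i t := by
  simp only [split, List.mem_flatMap, List.mem_range]
  refine exists_congr fun i => and_congr Iff.rfl ?_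
  by_cases h : s.getD i 0 = 0
  · simp only [eqb, h, decide_true, cond_true, List.mem_map, List.mem_range, true_and, eq_comm]
  · simp only [eqb, h, decide_false, cond_false, List.not_mem_nil, false_and]

lemma dim_split {k : ℕ} {x s s' : List ℕ} (h : s' ∈ split k x s) : dim k s' < dim k s := by
  obtain ⟨i, hi, h0, t, _, rfl⟩ := mem_split.1 h
  rw [dim_eq, dim_eq]
  apply Finset.card_lt_card
  refine ⟨fun j hj => ?_, fun hsub => ?_⟩
  · simp only [Finset.mem_filter, Finset.mem_range] at hj ⊢
    obtain ⟨hj1, hj2⟩ := hj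
    rw [upd_getD s i t hj1] at hj2
    split_ifs at hj2 with hji
    · exact ⟨hj1, hj2⟩
  · have : i ∈ (Finset.range k).filter fun j => s.getD j 0 = 0 := by
      simp only [Finset.mem_filter, Finset.mem_range]; exact ⟨hi, h0⟩
    have := hsub this
    simp only [Finset.mem_filter, Finset.mem_range] at this
    rw [upd_getD s i t hi] at this
    simp at this

lemma hits_iff {k : ℕ} {x s : List ℕ} :
    hits k x s = true ↔ ∀ i < k, s.getD i 0 = 0 ∨ x.getD i 0 < s.getD i 0 := by
  simp only [hits, List.all_eq_true, List.mem_range, Bool.or_eq_true, eqb_true, ltb_true]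

lemma refine_covers {k : ℕ} {x : List ℕ} {L : List (List ℕ)} {y : ℕ → ℕ}
    (h : ∃ s ∈ L, InCone k s y) (hy : ∃ i < k, y i < x.getD i 0) :
    ∃ s ∈ refine k x L, InCone k s y := by
  obtain ⟨s, hs, hsy⟩ := h
  obtain ⟨i, hi, hyi⟩ := hy
  by_cases hh : hits k x s = true
  · have h0 : s.getD i 0 = 0 := by
      rcases hits_iff.1 hh i hi with h1 | h1
      · exact h1
      · rcases hsy i hi with h2 | h2 <;> omega
    refine ⟨upd k s i (y i), ?_, fun j hj => ?_⟩
    · simp only [refine, List.mem_flatMap]
      exact ⟨s, hs, by rw [hh, cond_true]; exact mem_split.2 ⟨i, hi, h0, _, hyi, rfl⟩⟩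
    · rw [upd_getD s i _ hj]
      split_ifs with hji
      · subst hji; exact Or.inr rfl
      · exact hsy j hj
  · refine ⟨s, ?_, hsy⟩
    simp only [refine, List.mem_flatMap]
    refine ⟨s, hs, ?_⟩
    rw [Bool.not_eq_true] at hh
    rw [hh, cond_false]; simp

lemma cover_covers {k : ℕ} (P : List (List ℕ × List ℕ)) {y : ℕ → ℕ}
    (hy : ∀ p ∈ P, ∃ i < k, y i < p.1.getD i 0) : ∃ s ∈ cover k P, InCone k s y := by
  induction P with
  | nil => exact ⟨[], by simp [cover], fun i _ => Or.inl (by simp)⟩
  | cons p P ih =>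
    exact refine_covers (ih fun q hq => hy q (List.mem_cons_of_mem _ hq)) (hy p List.mem_cons_self)

lemma cnt_append (k : ℕ) (L L' : List (List ℕ)) (d : ℕ) :
    cnt k (L ++ L') d = cnt k L d + cnt k L' d := by
  simp [cnt, sumL_eq]

lemma cnt_zero {k : ℕ} {L : List (List ℕ)} {d : ℕ} (h : ∀ s ∈ L, dim k s < d) : cnt k L d = 0 := by
  rw [cnt, sumL_eq]
  apply List.sum_eq_zero
  intro a ha
  obtain ⟨s, hs, rfl⟩ := List.mem_map.1 ha
  have : dim k s ≠ d := (h s hs).ne
  simp [eqb, this]

lemma cnt_refine {k : ℕ} {x : List ℕ} {d : ℕ} (L : List (List ℕ))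
    (h : ∀ s ∈ L, hits k x s = true → dim k s ≤ d) :
    (∀ e, d ≤ e → cnt k (refine k x L) e ≤ cnt k L e) ∧
      ((∃ s ∈ L, hits k x s = true ∧ dim k s = d) → cnt k (refine k x L) d < cnt k L d) := by
  induction L with
  | nil => simp [refine]
  | cons s L ih =>
    obtain ⟨ih1, ih2⟩ := ih fun t ht => h t (List.mem_cons_of_mem _ ht)
    have e1 : refine k x (s :: L) = cond (hits k x s) (split k x s) [s] ++ refine k x L := by
      simp [refine]
    have e2 : ∀ e, cnt k (s :: L) e = cnt k [s] e + cnt k L e := fun e => cnt_append k [s] L e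
    by_cases hh : hits k x s = true
    · have hz : ∀ e, d ≤ e → cnt k (split k x s) e = 0 := fun e he =>
        cnt_zero fun s' hs' => (dim_split hs').trans_le ((h s List.mem_cons_self hh).trans he)
      rw [hh, cond_true] at e1
      refine ⟨fun e he => ?_, ?_⟩
      · rw [e1, cnt_append, e2, hz e he]
        have := ih1 e he
        omega
      · rintro ⟨t, ht, ht1, ht2⟩
        rw [e1, cnt_append, e2, hz d le_rfl]
        rcases List.mem_cons.1 ht with rfl | ht
        · have h1 : cnt k [t] d = 1 := by simp [cnt, sumL, eqb, ht2]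
          have := ih1 d le_rfl
          omega
        · have := ih2 ⟨t, ht, ht1, ht2⟩
          omega
    · have hh' := hh
      rw [Bool.not_eq_true] at hh'
      rw [hh', cond_false] at e1
      refine ⟨fun e he => ?_, ?_⟩
      · rw [e1, cnt_append, e2]
        have := ih1 e he
        omega
      · rintro ⟨t, ht, ht1, ht2⟩
        rw [e1, cnt_append, e2]
        rcases List.mem_cons.1 ht with rfl | ht
        · exact absurd ht1 hh
        · have := ih2 ⟨t, ht, ht1, ht2⟩
          omega

/-- Adding a rule whose left side was irreducible lowers the ordinal. -/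
lemma item_lt {k : ℕ} (P : List (List ℕ × List ℕ)) (p : List ℕ × List ℕ)
    (hp : ∀ q ∈ P, ∃ i < k, p.1.getD i 0 < q.1.getD i 0) :
    cnf (item k (p :: P)) < cnf (item k P) := by
  classical
  obtain ⟨s, hs, hsy⟩ := cover_covers P (y := fun i => p.1.getD i 0) hp
  have hh : hits k p.1 s = true := hits_iff.2 fun i hi => by
    rcases hsy i hi with h | h
    · exact Or.inl h
    · exact Or.inr (by simp only at h; omega)
  have hne : (((cover k P).toFinset).filter fun t => hits k p.1 t = true).Nonempty :=
    ⟨s, by simp [hs, hh]⟩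
  obtain ⟨t, ht, hmax⟩ := Finset.exists_max_image _ (dim k) hne
  simp only [Finset.mem_filter, List.mem_toFinset] at ht hmax
  obtain ⟨h1, h2⟩ := cnt_refine (x := p.1) (d := dim k t) (cover k P)
    (fun s hs hh => hmax s ⟨hs, hh⟩)
  have h3 := h2 ⟨t, ht.1, ht.2, rfl⟩
  have hget : ∀ (g : ℕ → ℕ) (e : ℕ), ((List.range (k + 1)).map g ++ [0]).getD e 0
      = if e < k + 1 then g e else 0 := by
    intro g e
    split_ifs with he
    · simp [List.getD_eq_getElem?_getD, List.getElem?_append_left, he]
    · rw [List.getD_eq_getElem?_getD, List.getElem?_append_right (by simpa using he)]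
      simp only [List.length_map, List.length_range]
      cases e - (k + 1) <;> simp
  have hd := dim_le k t
  apply cnf_lt_of_lex (dim k t + 1) (by simp [item])
  · simp only [item, List.getD_cons_succ, hget, if_pos (Nat.lt_succ_of_le hd)]
    exact h3
  · intro e he
    obtain ⟨e, rfl⟩ : ∃ e', e = e' + 1 := ⟨e - 1, by omega⟩
    simp only [item, List.getD_cons_succ, hget]
    split_ifs
    · exact h1 e (by omega)
    · exact le_rfl

lemma item_inj {k k' : ℕ} {P P' : List (List ℕ × List ℕ)} (h : item k P = item k' P') :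
    k = k' ∧ P = P' := by
  have := Encodable.encode_injective (List.cons.inj h).1
  exact Prod.mk.inj this

end Pool.Agent.P.MP_00bf54_lc
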