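import Mathlib

/-! Definitions for the isomorphism problem of c.e. commutative semigroups. -/

set_option autoImplicit false

namespace Pool.Agent.P.MP_00bf54_lc

open Ordinal

/-- The `e`-th c.e. set. -/
def W (e : ℕ) : Set ℕ := {n | ((Denumerable.ofNat Nat.Partrec.Code e).eval n).Dom}

/-- Computable reducibility of relations on `ℕ`. -/
def CRed (E F : ℕ → ℕ → Prop) : Prop :=
  ∃ f : ℕ → ℕ, Computable f ∧ ∀ e i, E e i ↔ F (f e) (f i)

/-- `W e` and `W i` are both empty or have the same least element for the order `lt`. -/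
def Emin (lt : ℕ → ℕ → Prop) (e i : ℕ) : Prop :=
  (W e = ∅ ∧ W i = ∅) ∨
    ∃ m, m ∈ W e ∧ m ∈ W i ∧ (∀ x ∈ W e, ¬ lt x m) ∧ (∀ x ∈ W i, ¬ lt x m)

/-- The list `[c₀, …, c_k]` codes the Cantor normal form
`ω^k (c_k + 1) + ω^(k-1) c_(k-1) + ⋯ + ω c₁ + c₀`, and the empty list codes `0`. -/
noncomputable def cnf : List ℕ → Ordinal.{0}
  | [] => 0
  | [c] => (c : Ordinal) + 1
  | c :: d :: l => ω * cnf (d :: l) + c

/-- The ordinal coded by a natural number. -/
noncomputable def rank (n : ℕ) : Ordinal.{0} := cnf (Denumerable.ofNat (List ℕ) n)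

/-- The free commutative semigroup on `k` generators: nonzero exponent vectors. -/
def FCS (k : ℕ) : AddSubsemigroup (Fin k → ℕ) where
  carrier := {v | v ≠ 0}
  add_mem' ha _ h := ha (add_eq_zero.1 h).1

/-- The commutative semigroup on `k` generators with the equations listed in `W e`. -/
def Pres (k e : ℕ) : Type :=
  (addConGen fun u v : FCS k =>
    Encodable.encode (List.ofFn u.1, List.ofFn v.1) ∈ W e).Quotient

instance instAddPres (k e : ℕ) : Add (Pres k e) := AddCon.hasAdd _

end Pool.Agent.P.MP_00bf54_lc
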