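import Pool.Agent.P.MP_00bf54_lc.Semi
import Pool.Agent.P.MP_b4a472_lc.RE

/-! The items of a c.e. presented semigroup are uniformly c.e. -/

set_option autoImplicit false

namespace Pool.Agent.P.MP_00bf54_lc

open Pool.Agent.Lib.Comp Pool.Agent.P.MP_b4a472_lc

section General

variable {α β : Type} [Primcodable α] [Primcodable β]

lemma re_bool {f : α → Bool} (hf : Primrec f) : REPred (fun a => f a = true) :=
  re_of_primrec (Primrec.eq.comp hf (Primrec.const true))

lemma re_eq {f g : α → β} (hf : Primrec f) (hg : Primrec g) : REPred (fun a => f a = g a) :=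
  re_of_primrec (Primrec.eq.comp hf hg)

lemma re_ex' [Inhabited β] {p : β × α → Prop} (hp : REPred p) :
    REPred (fun a => ∃ b, p (b, a)) := by
  have h : Primrec (fun x : ℕ × α => (((Encodable.decode x.1 : Option β).getD default), x.2)) := by
    fun_prop
  refine (re_ex (re_comp hp h)).of_eq fun a => ⟨fun ⟨_, h⟩ => ⟨_, h⟩, fun ⟨b, h⟩ => ?_⟩
  exact ⟨Encodable.encode b, by simpa using h⟩

lemma re_W : REPred (fun p : ℕ × ℕ => p.2 ∈ W p.1) :=
  (Nat.Partrec.Code.eval_part.comp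
    ((Primrec.ofNat Nat.Partrec.Code).comp Primrec.fst).to_comp Computable.snd).dom_re

omit [Primcodable β] in
lemma rtg_iff [Inhabited β] (r : β → β → Prop) (b c : β) : Relation.ReflTransGen r b c ↔
    ∃ n : ℕ, ∃ ch : List β, ch.getD 0 default = b ∧ ch.getD n default = c ∧
      ∀ i < n, r (ch.getD i default) (ch.getD (i + 1) default) := by
  constructor
  · intro h
    induction h using Relation.ReflTransGen.head_induction_on with
    | refl => exact ⟨0, [c], rfl, rfl, fun i hi => absurd hi (Nat.not_lt_zero i)⟩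
    | @head a a' h1 _ ih =>
      obtain ⟨n, ch, e1, e2, e3⟩ := ih
      refine ⟨n + 1, a :: ch, rfl, e2, fun i hi => ?_⟩
      cases i with
      | zero => simpa [e1] using (by rw [← e1] at h1; exact h1)
      | succ i => exact e3 i (by omega)
  · rintro ⟨n, ch, rfl, rfl, e3⟩
    induction n with
    | zero => exact .refl
    | succ n ih => exact (ih fun i hi => e3 i (by omega)).tail (e3 n (by omega))

lemma re_rtg [Inhabited β] {r : α → β → β → Prop}
    (h : REPred fun p : α × β × β => r p.1 p.2.1 p.2.2) :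
    REPred fun p : α × β × β => Relation.ReflTransGen (r p.1) p.2.1 p.2.2 := by
  have h1 : REPred fun x : ℕ × List β × ℕ × α × β × β =>
      r x.2.2.2.1 (x.2.1.getD x.1 default) (x.2.1.getD (x.1 + 1) default) :=
    re_comp h (f := fun x : ℕ × List β × ℕ × α × β × β =>
      (x.2.2.2.1, x.2.1.getD x.1 default, x.2.1.getD (x.1 + 1) default)) (by fun_prop)
  have h2 := re_ball h1 (f := fun x : List β × ℕ × α × β × β => x.2.1) (by fun_prop)
  have h3 : REPred fun x : List β × ℕ × α × β × β => x.1.getD 0 default = x.2.2.2.1 :=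
    re_eq (by fun_prop) (by fun_prop)
  have h4 : REPred fun x : List β × ℕ × α × β × β => x.1.getD x.2.1 default = x.2.2.2.2 :=
    re_eq (by fun_prop) (by fun_prop)
  exact (re_ex (re_ex' (re_and h3 (re_and h4 h2)))).of_eq fun p =>
    (rtg_iff (r p.1) p.2.1 p.2.2).symm

lemma exists_index {q : ℕ × ℕ → Prop} (hq : REPred q) :
    ∃ f : ℕ → ℕ, Computable f ∧ ∀ e n, n ∈ W (f e) ↔ q (e, n) := by
  obtain ⟨c, hc⟩ := re_code hq
  refine ⟨fun e => Encodable.encode (Nat.Partrec.Code.curry c e), ?_, fun e n => ?_⟩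
  · exact (Primrec.encode.comp (Nat.Partrec.Code.primrec₂_curry.comp (Primrec.const c)
      Primrec.id)).to_comp
  · rw [hc]
    simp only [W, Denumerable.ofNat_encode, Set.mem_ofPred_eq, Nat.Partrec.Code.eval_curry]
    rfl

end General

lemma range_map_eq (K : ℕ) (g : ℕ → ℕ) :
    (List.range K).map g = List.ofFn (fun i : Fin K => g i) := by
  apply List.ext_getElem <;> simp

/-- The vector read off a list. -/
def vec (K : ℕ) (l : List ℕ) : Fin K → ℕ := fun i => l.getD i 0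

lemma vec_ofFn {K : ℕ} (u : Fin K → ℕ) : vec K (List.ofFn u) = u := funext (ofFn_getD u)

lemma ofFn_vec {K : ℕ} {l : List ℕ} (h : l.length = K) : List.ofFn (vec K l) = l := by
  apply List.ext_getElem (by simp [h])
  intro i h1 h2
  simp [vec, List.getD_eq_getElem?_getD, h2]

/-- Test for a nonzero vector. -/
def nzb (K : ℕ) (l : List ℕ) : Bool := (List.range K).any fun i => ltb 0 (l.getD i 0)

@[fun_prop] lemma pr_nzb : Primrec (fun p : ℕ × List ℕ => nzb p.1 p.2) := by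
  unfold nzb; fun_prop

lemma nzb_iff {K : ℕ} {l : List ℕ} : nzb K l = true ↔ vec K l ≠ 0 := by
  simp only [nzb, List.any_eq_true, List.mem_range, ltb_true, Ne, funext_iff, not_forall]
  constructor
  · rintro ⟨i, hi, h⟩
    exact ⟨⟨i, hi⟩, h.ne'⟩
  · rintro ⟨i, h⟩
    exact ⟨i, i.2, Nat.pos_of_ne_zero h⟩

/-- Sum of two vectors. -/
def ad (K : ℕ) (a c : List ℕ) : List ℕ := (List.range K).map fun i => a.getD i 0 + c.getD i 0

@[fun_prop] lemma pr_ad : Primrec (fun p : ℕ × List ℕ × List ℕ => ad p.1 p.2.1 p.2.2) := by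
  unfold ad; fun_prop

lemma ad_eq (K : ℕ) (a c : List ℕ) : ad K a c = List.ofFn (vec K a + vec K c) :=
  range_map_eq _ _

/-- One application of a listed equation. -/
def Step (K e : ℕ) (y z : List ℕ) : Prop :=
  ∃ a b c : List ℕ, (eqb a.length K && eqb b.length K && nzb K a && nzb K b) = true ∧
    Encodable.encode (a, b) ∈ W e ∧
      ((y, z) = (ad K a c, ad K b c) ∨ (y, z) = (ad K b c, ad K a c))

lemma re_Step : REPred fun p : (ℕ × ℕ) × List ℕ × List ℕ => Step p.1.1 p.1.2 p.2.1 p.2.2 := by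
  have h1 : REPred fun x : List ℕ × List ℕ × List ℕ × (ℕ × ℕ) × List ℕ × List ℕ =>
      (eqb x.2.2.1.length x.2.2.2.1.1 && eqb x.2.1.length x.2.2.2.1.1 && nzb x.2.2.2.1.1 x.2.2.1
        && nzb x.2.2.2.1.1 x.2.1) = true := re_bool (by fun_prop)
  have h2 : REPred fun x : List ℕ × List ℕ × List ℕ × (ℕ × ℕ) × List ℕ × List ℕ =>
      Encodable.encode (x.2.2.1, x.2.1) ∈ W x.2.2.2.1.2 :=
    re_comp re_W (f := fun x : List ℕ × List ℕ × List ℕ × (ℕ × ℕ) × List ℕ × List ℕ =>
      (x.2.2.2.1.2, Encodable.encode (x.2.2.1, x.2.1))) (by fun_prop)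
  have h3 : REPred fun x : List ℕ × List ℕ × List ℕ × (ℕ × ℕ) × List ℕ × List ℕ =>
      (x.2.2.2.2.1, x.2.2.2.2.2) = (ad x.2.2.2.1.1 x.2.2.1 x.1, ad x.2.2.2.1.1 x.2.1 x.1) :=
    re_eq (by fun_prop) (by fun_prop)
  have h4 : REPred fun x : List ℕ × List ℕ × List ℕ × (ℕ × ℕ) × List ℕ × List ℕ =>
      (x.2.2.2.2.1, x.2.2.2.2.2) = (ad x.2.2.2.1.1 x.2.1 x.1, ad x.2.2.2.1.1 x.2.2.1 x.1) :=
    re_eq (by fun_prop) (by fun_prop)
  exact re_ex' (re_ex' (re_ex' (re_and h1 (re_and h2 (re_or h3 h4)))))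

/-- Equality of words in the presented semigroup. -/
def Cong (K e : ℕ) (y z : List ℕ) : Prop := Relation.ReflTransGen (Step K e) y z

lemma re_Cong : REPred fun p : (ℕ × ℕ) × List ℕ × List ℕ => Cong p.1.1 p.1.2 p.2.1 p.2.2 :=
  re_rtg (r := fun a : ℕ × ℕ => Step a.1 a.2) re_Step

/-- The congruence of the presentation. -/
def conW (K e : ℕ) : AddCon (FCS K) :=
  addConGen fun u v : FCS K => Encodable.encode (List.ofFn u.1, List.ofFn v.1) ∈ W e

lemma step_iff {K e : ℕ} {y z : List ℕ} : Step K e y z ↔ ∃ (u v : FCS K) (c : Fin K → ℕ),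
    Encodable.encode (List.ofFn u.1, List.ofFn v.1) ∈ W e ∧
      ((y = List.ofFn (u.1 + c) ∧ z = List.ofFn (v.1 + c)) ∨
        (y = List.ofFn (v.1 + c) ∧ z = List.ofFn (u.1 + c))) := by
  constructor
  · rintro ⟨a, b, c, h1, h2, h3⟩
    simp only [Bool.and_eq_true, eqb_true, nzb_iff] at h1
    obtain ⟨⟨⟨la, lb⟩, na⟩, nb⟩ := h1
    refine ⟨⟨_, na⟩, ⟨_, nb⟩, vec K c, ?_, ?_⟩
    · simp only [ofFn_vec la, ofFn_vec lb]; exact h2
    · simpa only [ad_eq, Prod.mk.injEq] using h3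
  · rintro ⟨u, v, c, h2, h3⟩
    refine ⟨List.ofFn u.1, List.ofFn v.1, List.ofFn c, ?_, h2, ?_⟩
    · simp only [Bool.and_eq_true, eqb_true, nzb_iff, vec_ofFn, List.length_ofFn, true_and]
      exact ⟨u.2, v.2⟩
    · simpa only [ad_eq, Prod.mk.injEq, vec_ofFn] using h3

lemma Step.symm {K e : ℕ} {y z : List ℕ} (h : Step K e y z) : Step K e z y := by
  obtain ⟨u, v, c, h2, h3⟩ := step_iff.1 h
  exact step_iff.2 ⟨u, v, c, h2, by tauto⟩

lemma Cong.symm {K e : ℕ} {y z : List ℕ} (h : Cong K e y z) : Cong K e z y := by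
  induction h with
  | refl => exact .refl
  | tail _ h2 ih => exact Relation.ReflTransGen.head h2.symm ih

lemma cong_shift {K e : ℕ} {y z : List ℕ} (h : Cong K e y z) (u : Fin K → ℕ)
    (hy : y = List.ofFn u) (d : Fin K → ℕ) :
    ∃ v : Fin K → ℕ, z = List.ofFn v ∧ Cong K e (List.ofFn (u + d)) (List.ofFn (v + d)) := by
  induction h with
  | refl => exact ⟨u, hy, .refl⟩
  | tail _ h2 ih =>
    obtain ⟨w, hw, h3⟩ := ih
    obtain ⟨a, b, c, h4, ⟨e1, e2⟩ | ⟨e1, e2⟩⟩ := step_iff.1 h2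
    · refine ⟨_, e2, h3.tail (step_iff.2 ⟨a, b, c + d, h4, Or.inl ⟨?_, ?_⟩⟩)⟩
      · rw [List.ofFn_injective (hw.symm.trans e1), add_assoc]
      · rw [add_assoc]
    · refine ⟨_, e2, h3.tail (step_iff.2 ⟨a, b, c + d, h4, Or.inr ⟨?_, ?_⟩⟩)⟩
      · rw [List.ofFn_injective (hw.symm.trans e1), add_assoc]
      · rw [add_assoc]

lemma cong_iff {K e : ℕ} (u v : FCS K) :
    Cong K e (List.ofFn u.1) (List.ofFn v.1) ↔ conW K e u v := by
  constructor
  · intro h
    have : ∀ z, Cong K e (List.ofFn u.1) z → ∃ w : FCS K, z = List.ofFn w.1 ∧ conW K e u w := by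
      intro z hz
      induction hz with
      | refl => exact ⟨u, rfl, (conW K e).refl u⟩
      | tail _ h2 ih =>
        obtain ⟨w, hw, h3⟩ := ih
        obtain ⟨a, b, c, h4, ⟨e1, e2⟩ | ⟨e1, e2⟩⟩ := step_iff.1 h2
        · have h5 : conW K e a b := AddConGen.Rel.of _ _ h4
          have e3 : w = shift a c := Subtype.ext (List.ofFn_injective (hw.symm.trans e1))
          exact ⟨shift b c, e2, (conW K e).trans h3 (e3 ▸ shift_con _ h5 c)⟩
        · have h5 : conW K e b a := (conW K e).symm (AddConGen.Rel.of _ _ h4)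
          have e3 : w = shift b c := Subtype.ext (List.ofFn_injective (hw.symm.trans e1))
          exact ⟨shift a c, e2, (conW K e).trans h3 (e3 ▸ shift_con _ h5 c)⟩
    obtain ⟨w, hw, h2⟩ := this _ h
    rwa [Subtype.ext (List.ofFn_injective hw)]
  · intro h
    induction h with
    | of a b h => exact .single (step_iff.2 ⟨a, b, 0, h, Or.inl ⟨by simp, by simp⟩⟩)
    | refl a => exact .refl
    | symm _ ih => exact ih.symm
    | trans _ _ ih1 ih2 => exact ih1.trans ih2
    | @add a b c d _ _ ih1 ih2 =>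
      obtain ⟨v1, e1, h1⟩ := cong_shift ih1 a.1 rfl c.1
      obtain ⟨v2, e2, h2⟩ := cong_shift ih2 c.1 rfl b.1
      rw [← List.ofFn_injective e1] at h1
      rw [← List.ofFn_injective e2, add_comm c.1, add_comm d.1] at h2
      exact h1.trans h2

/-- Test for a list of oriented rules. -/
def goodb (k : ℕ) (P : List (List ℕ × List ℕ)) : Bool :=
  P.all fun p => eqb p.1.length k && eqb p.2.length k && nzb k p.2 &&
    (List.range k).any fun i => ltb (p.2.getD i 0) (p.1.getD i 0) &&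
      (List.range i).all fun j => eqb (p.2.getD j 0) (p.1.getD j 0)

@[fun_prop] lemma pr_goodb : Primrec (fun p : ℕ × List (List ℕ × List ℕ) => goodb p.1 p.2) := by
  unfold goodb; fun_prop

lemma goodb_iff {k : ℕ} {P : List (List ℕ × List ℕ)} : goodb k P = true ↔ Good k P := by
  simp only [goodb, Good, List.all_eq_true, Bool.and_eq_true, eqb_true, nzb_iff, List.any_eq_true,
    List.mem_range, ltb_true]
  refine forall₂_congr fun p _ => ⟨?_, ?_⟩
  · rintro ⟨⟨⟨l1, l2⟩, n2⟩, i, hi, h1, h2⟩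
    refine ⟨⟨vec k p.1, fun h => ?_⟩, ⟨vec k p.2, n2⟩, ?_, ⟨i, hi⟩, fun j hj => h2 j hj, h1⟩
    · have : p.1.getD i 0 = 0 := congrFun h ⟨i, hi⟩
      omega
    · simp only [ofFn_vec l1, ofFn_vec l2]
  · rintro ⟨u, v, rfl, i, h1, h2⟩
    refine ⟨⟨⟨by simp, by simp⟩, by rw [vec_ofFn]; exact v.2⟩, i, i.2, ?_, fun j hj => ?_⟩
    · simpa only [ofFn_getD] using h2
    · have := h1 ⟨j, hj.trans i.2⟩ hj
      rwa [← ofFn_getD v.1, ← ofFn_getD u.1] at this

/-- Substituting the words `M` for the generators in the word `u`. -/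
def app (K k : ℕ) (M : List (List ℕ)) (u : List ℕ) : List ℕ :=
  (List.range K).map fun j => sumL ((List.range k).map fun i => u.getD i 0 * (M.getD i []).getD j 0)

@[fun_prop] lemma pr_app :
    Primrec (fun p : ℕ × ℕ × List (List ℕ) × List ℕ => app p.1 p.2.1 p.2.2.1 p.2.2.2) := by
  unfold app; fun_prop

lemma app_eq (K k : ℕ) (M : List (List ℕ)) (u : List ℕ) :
    app K k M u = List.ofFn (∑ i : Fin k, vec k u i • vec K (M.getD i [])) := by
  rw [app, range_map_eq]
  congr 1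
  funext j
  rw [sumL_eq, range_map_eq, List.sum_ofFn, Finset.sum_apply]
  rfl

/-- The generator as a list. -/
def unitL (K j : ℕ) : List ℕ := (List.range K).map fun i => cond (eqb i j) 1 0

@[fun_prop] lemma pr_unitL : Primrec (fun p : ℕ × ℕ => unitL p.1 p.2) := by
  unfold unitL; fun_prop

lemma unitL_eq {K : ℕ} (j : Fin K) : unitL K j = List.ofFn (gen j).1 := by
  rw [unitL, range_map_eq]
  congr 1
  funext i
  by_cases h : i = j
  · subst h; simp [gen, eqb]
  · have : (i : ℕ) ≠ j := fun e => h (Fin.ext e)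
    simp [gen, eqb, h, this]

/-- The homomorphism with prescribed values on the generators. -/
def subst {K k : ℕ} (w : Fin k → FCS K) : FCS k →ₙ+ FCS K where
  toFun u := ⟨∑ i, u.1 i • (w i).1, fun h => u.2 (funext fun i => by
    have := (Finset.sum_eq_zero_iff.1 h) i (Finset.mem_univ i)
    exact (smul_eq_zero.1 this).resolve_right (w i).2)⟩
  map_add' a b := Subtype.ext (by
    change ∑ i, (a.1 + b.1) i • (w i).1 = ∑ i, a.1 i • (w i).1 + ∑ i, b.1 i • (w i).1
    simp [add_smul, Finset.sum_add_distrib])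

lemma subst_gen {K k : ℕ} (w : Fin k → FCS K) (i : Fin k) : subst w (gen i) = w i :=
  Subtype.ext (by
    change ∑ j, (Pi.single i 1 : Fin k → ℕ) j • (w j).1 = (w i).1
    rw [Finset.sum_eq_single i] <;> simp +contextual)

/-- The c.e. form of validity. -/
def ValidL (K e k : ℕ) (P : List (List ℕ × List ℕ)) : Prop :=
  goodb k P = true ∧ ∃ M C : List (List ℕ), (∀ i < k, nzb K (M.getD i []) = true) ∧
    (∀ j < K, nzb k (C.getD j []) = true ∧ Cong K e (app K k M (C.getD j [])) (unitL K j)) ∧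
    ∀ i < P.length, Cong K e (app K k M (P.getD i ([], [])).1) (app K k M (P.getD i ([], [])).2)

/-- The quotient map of a presentation. -/
def mkP (K e : ℕ) : FCS K →ₙ+ Pres K e := AddCon.mkAddHom (conW K e)

lemma mkP_eq {K e : ℕ} {u v : FCS K} : mkP K e u = mkP K e v ↔ conW K e u v := AddCon.eq _

lemma mkP_surj (K e : ℕ) : Function.Surjective (mkP K e) := Quotient.mk_surjective

lemma validL_iff {K e k : ℕ} {P : List (List ℕ × List ℕ)} :
    ValidL K e k P ↔ Valid (Pres K e) k P := by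
  rw [ValidL, Valid, goodb_iff]
  refine and_congr_right fun hP => ⟨?_, ?_⟩
  · rintro ⟨M, C, h1, h2, h3⟩
    let w : Fin k → FCS K := fun i => ⟨vec K (M.getD i []), nzb_iff.1 (h1 i i.2)⟩
    have hw : ∀ u : FCS k, app K k M (List.ofFn u.1) = List.ofFn (subst w u).1 := by
      intro u; rw [app_eq, vec_ofFn]; rfl
    refine ⟨(mkP K e).comp (subst w), ?_, ?_⟩
    · intro a
      obtain ⟨u, rfl⟩ := mkP_surj K e a
      induction u using FCS.induction with
      | h1 j =>
        obtain ⟨n, c⟩ := h2 j j.2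
        refine ⟨⟨vec k (C.getD j []), nzb_iff.1 n⟩, mkP_eq.2 ((cong_iff _ _).1 ?_)⟩
        rw [← unitL_eq]
        convert c using 1
        rw [app_eq]; rfl
      | h2 u v hu hv =>
        obtain ⟨a, ha⟩ := hu
        obtain ⟨b, hb⟩ := hv
        exact ⟨a + b, by rw [map_add, map_add, ha, hb]⟩
    · intro u v huv
      obtain ⟨i, hi, e⟩ := List.getElem_of_mem huv
      have := h3 i hi
      rw [List.getD_eq_getElem _ _ hi, e, hw, hw] at this
      exact mkP_eq.2 ((cong_iff _ _).1 this)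
  · rintro ⟨φ, h2, h3⟩
    choose w hw using fun i : Fin k => mkP_surj K e (φ (gen i))
    choose c hc using fun j : Fin K => h2 (mkP K e (gen j))
    have hφ : ∀ u, φ u = mkP K e (subst w u) := by
      intro u
      induction u using FCS.induction with
      | h1 i => rw [subst_gen, hw]
      | h2 u v hu hv => rw [map_add, map_add, map_add, hu, hv]
    have hM : ∀ i : Fin k, (List.ofFn fun i => List.ofFn (w i).1).getD i [] = List.ofFn (w i).1 := by
      intro i; simp [List.getD_eq_getElem?_getD]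
    have hC : ∀ j : Fin K, (List.ofFn fun j => List.ofFn (c j).1).getD j [] = List.ofFn (c j).1 := by
      intro i; simp [List.getD_eq_getElem?_getD]
    have happ : ∀ u : FCS k, app K k (List.ofFn fun i => List.ofFn (w i).1) (List.ofFn u.1)
        = List.ofFn (subst w u).1 := by
      intro u
      rw [app_eq, vec_ofFn]
      simp only [hM, vec_ofFn]
      rfl
    refine ⟨List.ofFn fun i => List.ofFn (w i).1, List.ofFn fun j => List.ofFn (c j).1,
      fun i hi => ?_, fun j hj => ⟨?_, ?_⟩, fun i hi => ?_⟩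
    · rw [hM ⟨i, hi⟩, nzb_iff, vec_ofFn]; exact (w _).2
    · rw [hC ⟨j, hj⟩, nzb_iff, vec_ofFn]; exact (c _).2
    · rw [hC ⟨j, hj⟩, happ, unitL_eq ⟨j, hj⟩, cong_iff, ← mkP_eq, ← hφ, hc]
    · rw [List.getD_eq_getElem _ _ hi]
      obtain ⟨u, v, e, -⟩ := hP _ (List.getElem_mem hi)
      have := h3 u v (e ▸ List.getElem_mem hi)
      rw [e, happ, happ, cong_iff, ← mkP_eq, ← hφ, ← hφ, this]

/-- Type of the tuples used below. -/
abbrev TT : Type := List (List ℕ) × List (List ℕ) × (ℕ × List (List ℕ × List ℕ)) × ℕ × ℕ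

lemma re_ValidL : REPred fun p : (ℕ × List (List ℕ × List ℕ)) × ℕ × ℕ =>
    ValidL p.2.1 p.2.2 p.1.1 p.1.2 := by
  have h0 : REPred fun p : (ℕ × List (List ℕ × List ℕ)) × ℕ × ℕ => goodb p.1.1 p.1.2 = true :=
    re_bool (by fun_prop)
  have h1 : REPred fun x : ℕ × TT => nzb x.2.2.2.2.1 (x.2.2.1.getD x.1 []) = true :=
    re_bool (by fun_prop)
  have h2 : REPred fun x : ℕ × TT => nzb x.2.2.2.1.1 (x.2.1.getD x.1 []) = true :=
    re_bool (by fun_prop)
  have h3 : REPred fun x : ℕ × TT => Cong x.2.2.2.2.1 x.2.2.2.2.2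
      (app x.2.2.2.2.1 x.2.2.2.1.1 x.2.2.1 (x.2.1.getD x.1 [])) (unitL x.2.2.2.2.1 x.1) :=
    re_comp re_Cong (f := fun x : ℕ × TT => ((x.2.2.2.2.1, x.2.2.2.2.2),
      app x.2.2.2.2.1 x.2.2.2.1.1 x.2.2.1 (x.2.1.getD x.1 []), unitL x.2.2.2.2.1 x.1))
      (by fun_prop)
  have h4 : REPred fun x : ℕ × TT => Cong x.2.2.2.2.1 x.2.2.2.2.2
      (app x.2.2.2.2.1 x.2.2.2.1.1 x.2.2.1 (x.2.2.2.1.2.getD x.1 ([], [])).1)
      (app x.2.2.2.2.1 x.2.2.2.1.1 x.2.2.1 (x.2.2.2.1.2.getD x.1 ([], [])).2) :=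
    re_comp re_Cong (f := fun x : ℕ × TT => ((x.2.2.2.2.1, x.2.2.2.2.2),
      app x.2.2.2.2.1 x.2.2.2.1.1 x.2.2.1 (x.2.2.2.1.2.getD x.1 ([], [])).1,
      app x.2.2.2.2.1 x.2.2.2.1.1 x.2.2.1 (x.2.2.2.1.2.getD x.1 ([], [])).2)) (by fun_prop)
  have g1 := re_ball h1 (f := fun x : TT => x.2.2.1.1) (by fun_prop)
  have g2 := re_ball (re_and h2 h3) (f := fun x : TT => x.2.2.2.1) (by fun_prop)
  have g3 := re_ball h4 (f := fun x : TT => x.2.2.1.2.length) (by fun_prop)
  exact re_and h0 (re_ex' (re_ex' (re_and g1 (re_and g2 g3))))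

/-- The set of codes of items of a semigroup. -/
def Items (A : Type) [Add A] : Set ℕ :=
  {n | ∃ k P, n = Encodable.encode (item k P) ∧ Valid A k P}

lemma re_Items : REPred fun p : (ℕ × ℕ) × ℕ => p.2 ∈ Items (Pres p.1.1 p.1.2) := by
  have h1 : REPred fun x : (ℕ × List (List ℕ × List ℕ)) × (ℕ × ℕ) × ℕ =>
      x.2.2 = Encodable.encode (item x.1.1 x.1.2) := re_eq (by fun_prop) (by fun_prop)
  have h2 : REPred fun x : (ℕ × List (List ℕ × List ℕ)) × (ℕ × ℕ) × ℕ =>
      ValidL x.2.1.1 x.2.1.2 x.1.1 x.1.2 :=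
    re_comp re_ValidL (f := fun x : (ℕ × List (List ℕ × List ℕ)) × (ℕ × ℕ) × ℕ => (x.1, x.2.1))
      (by fun_prop)
  refine (re_ex' (re_and h1 h2)).of_eq fun p => ?_
  simp only [Items, Set.mem_ofPred_eq, Prod.exists, validL_iff]

lemma rank_encode (l : List ℕ) : rank (Encodable.encode l) = cnf l := by
  have : Denumerable.ofNat (List ℕ) (Encodable.encode l) = l := Denumerable.ofNat_encode l
  rw [rank, this]

theorem reduction (g : ℕ → ℕ × ℕ) (hg : Primrec g) :
    CRed (fun e i => Nonempty (Pres (g e).1 (g e).2 ≃+ Pres (g i).1 (g i).2))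
      (Emin fun m n => rank m < rank n) := by
  obtain ⟨f, hf, h⟩ := exists_index (q := fun p : ℕ × ℕ => p.2 ∈ Items (Pres (g p.1).1 (g p.1).2))
    (re_comp re_Items (f := fun p : ℕ × ℕ => (g p.1, p.2)) (by fun_prop))
  have hW : ∀ e, W (f e) = Items (Pres (g e).1 (g e).2) := fun e => Set.ext (h e)
  have hne : ∀ e, (W (f e)).Nonempty := fun e => by
    rw [hW]
    exact ⟨_, (g e).1, [], rfl, by simp [Good], mkP _ _, mkP_surj _ _, by simp⟩
  refine ⟨f, hf, fun e i => ⟨?_, ?_⟩⟩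
  · rintro ⟨φ⟩
    have hEq : W (f e) = W (f i) := by
      rw [hW, hW]
      ext n
      exact ⟨fun ⟨k, P, h1, h2⟩ => ⟨k, P, h1, h2.map φ⟩,
        fun ⟨k, P, h1, h2⟩ => ⟨k, P, h1, h2.map φ.symm⟩⟩
    obtain ⟨m, hm, hmin⟩ := (InvImage.wf rank wellFounded_lt).has_min _ (hne e)
    exact Or.inr ⟨m, hm, hEq ▸ hm, hmin, hEq ▸ hmin⟩
  · rintro (⟨h1, -⟩ | ⟨m, h1, h2, h3, h4⟩)
    · exact absurd h1 (hne e).ne_empty
    · rw [hW] at h1 h2 h3 h4
      obtain ⟨k, P, rfl, hA⟩ := h1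
      obtain ⟨k', P', e', hB⟩ := h2
      obtain ⟨rfl, rfl⟩ := item_inj (Encodable.encode_injective e')
      refine iso_of_min hA hB (fun Q hQ => ?_) (fun Q hQ => ?_)
      · simpa only [rank_encode] using h3 _ ⟨k, Q, rfl, hQ⟩
      · simpa only [rank_encode] using h4 _ ⟨k, Q, rfl, hQ⟩

end Pool.Agent.P.MP_00bf54_lc
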