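import Pool.Agent.P.MP_00bf54_lc.Cones

/-! The least item of a finitely generated commutative semigroup determines it. -/

set_option autoImplicit false

namespace Pool.Agent.P.MP_00bf54_lc

/-- The generator `x_i`. -/
def gen {k : ℕ} (i : Fin k) : FCS k := ⟨Pi.single i 1, fun h => by simpa using congrFun h i⟩

/-- Multiplying a word by a possibly empty word. -/
def shift {k : ℕ} (u : FCS k) (c : Fin k → ℕ) : FCS k :=
  ⟨u.1 + c, fun h => u.2 (add_eq_zero.1 h).1⟩

lemma shift_con {k : ℕ} (r : AddCon (FCS k)) {u v : FCS k} (h : r u v) (c : Fin k → ℕ) :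
    r (shift u c) (shift v c) := by
  by_cases hc : c = 0
  · subst hc
    have e : ∀ w : FCS k, shift w 0 = w := fun w => Subtype.ext (add_zero _)
    rwa [e, e]
  · exact r.add h (r.refl ⟨c, hc⟩)

lemma FCS.induction {k : ℕ} {p : FCS k → Prop} (h1 : ∀ i, p (gen i))
    (h2 : ∀ u v, p u → p v → p (u + v)) (u : FCS k) : p u := by
  induction hn : ∑ i, u.1 i using Nat.strong_induction_on generalizing u with
  | _ n ih =>
    obtain ⟨i, hi⟩ : ∃ i, u.1 i ≠ 0 := by
      by_contra h
      push Not at h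
      exact u.2 (funext h)
    set c : Fin k → ℕ := u.1 - Pi.single i 1 with hc
    have e : u.1 = Pi.single i 1 + c := by
      funext j
      simp only [hc, Pi.add_apply, Pi.sub_apply]
      by_cases hj : j = i
      · subst hj; simp only [Pi.single_eq_same]; omega
      · simp [Pi.single_eq_of_ne hj]
    by_cases h0 : c = 0
    · have : u = gen i := Subtype.ext (by rw [e, h0, add_zero]; rfl)
      rw [this]; exact h1 i
    · have : u = gen i + ⟨c, h0⟩ := Subtype.ext e
      rw [this]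
      refine h2 _ _ (h1 i) (ih _ ?_ _ rfl)
      rw [← hn, e]
      simp [Finset.sum_add_distrib]

/-- Lexicographic order on exponent vectors. -/
def LexLt {k : ℕ} (v u : Fin k → ℕ) : Prop := ∃ i, (∀ j, j < i → v j = u j) ∧ v i < u i

lemma lexLt_wf (k : ℕ) : WellFounded (LexLt (k := k)) :=
  (wellFounded_lt (α := Lex (Fin k → ℕ)))

lemma lexLt_trichotomy {k : ℕ} (u v : Fin k → ℕ) : LexLt u v ∨ u = v ∨ LexLt v u :=
  lt_trichotomy (toLex u) (toLex v)

/-- A list of oriented rewriting rules between words on `k` generators. -/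
def Good (k : ℕ) (P : List (List ℕ × List ℕ)) : Prop :=
  ∀ p ∈ P, ∃ u v : FCS k, p = (List.ofFn u.1, List.ofFn v.1) ∧ LexLt v.1 u.1

/-- `A` is a quotient of the semigroup presented by `P`. -/
def Valid (A : Type) [Add A] (k : ℕ) (P : List (List ℕ × List ℕ)) : Prop :=
  Good k P ∧ ∃ φ : FCS k →ₙ+ A, Function.Surjective φ ∧
    ∀ u v : FCS k, (List.ofFn u.1, List.ofFn v.1) ∈ P → φ u = φ v

lemma Valid.map {A B : Type} [Add A] [Add B] (e : A ≃+ B) {k : ℕ} {P : List (List ℕ × List ℕ)}
    (h : Valid A k P) : Valid B k P := by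
  obtain ⟨h1, φ, h2, h3⟩ := h
  exact ⟨h1, (e : A →ₙ+ B).comp φ, e.surjective.comp h2, fun u v h => congrArg e (h3 u v h)⟩

lemma ofFn_getD {k : ℕ} (u : Fin k → ℕ) (i : Fin k) : (List.ofFn u).getD i 0 = u i := by
  simp [List.getD_eq_getElem?_getD]

/-- The congruence generated by the rules. -/
def conP (k : ℕ) (P : List (List ℕ × List ℕ)) : AddCon (FCS k) :=
  addConGen fun u v : FCS k => (List.ofFn u.1, List.ofFn v.1) ∈ P

lemma exists_nf {k : ℕ} {P : List (List ℕ × List ℕ)} (hP : Good k P) (w : FCS k) :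
    ∃ x : FCS k, conP k P w x ∧ ∀ q ∈ P, ∃ i < k, (List.ofFn x.1).getD i 0 < q.1.getD i 0 := by
  induction hw : w.1 using (lexLt_wf k).induction generalizing w with
  | _ y ih =>
    by_cases h : ∀ q ∈ P, ∃ i < k, (List.ofFn w.1).getD i 0 < q.1.getD i 0
    · exact ⟨w, (conP k P).refl w, h⟩
    push Not at h
    obtain ⟨q, hq, hle⟩ := h
    obtain ⟨u, v, rfl, i, hi1, hi2⟩ := hP q hq
    have hle' : ∀ j : Fin k, u.1 j ≤ w.1 j := fun j => by
      have := hle j j.2
      simp only at this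
      rwa [ofFn_getD, ofFn_getD] at this
    have e : w = shift u (w.1 - u.1) := Subtype.ext (funext fun j => by
      have := hle' j
      simp only [shift, Pi.add_apply, Pi.sub_apply]; omega)
    have h1 : conP k P w (shift v (w.1 - u.1)) := by
      conv_lhs => rw [e]
      exact shift_con _ (AddConGen.Rel.of _ _ hq) _
    obtain ⟨x, hx1, hx2⟩ := ih (shift v (w.1 - u.1)).1 (by
      rw [← hw]
      refine ⟨i, fun j hj => ?_, ?_⟩
      · have := hle' j
        have := hi1 j hj
        simp only [shift, Pi.add_apply, Pi.sub_apply]; omega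
      · have := hle' i
        simp only [shift, Pi.add_apply, Pi.sub_apply]; omega) _ rfl
    exact ⟨x, (conP k P).trans h1 hx1, hx2⟩

lemma ker_eq_of_min {A : Type} [Add A] {k : ℕ} {P : List (List ℕ × List ℕ)} (hP : Good k P)
    (φ : FCS k →ₙ+ A) (h2 : Function.Surjective φ)
    (h3 : ∀ u v : FCS k, (List.ofFn u.1, List.ofFn v.1) ∈ P → φ u = φ v)
    (hmin : ∀ P', Valid A k P' → ¬ cnf (item k P') < cnf (item k P)) (w w' : FCS k) :
    φ w = φ w' ↔ conP k P w w' := by
  have hle : ∀ a b, conP k P a b → φ a = φ b := fun a b hab =>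
    (AddCon.addConGen_le (c := AddCon.ker φ)).2 h3 hab
  refine ⟨fun h => ?_, hle w w'⟩
  obtain ⟨x, hx1, hx2⟩ := exists_nf hP w
  obtain ⟨y, hy1, hy2⟩ := exists_nf hP w'
  have hxy : φ x = φ y := by rw [← hle _ _ hx1, ← hle _ _ hy1, h]
  have key : ∀ x y : FCS k, φ x = φ y → LexLt y.1 x.1 →
      (∀ q ∈ P, ∃ i < k, (List.ofFn x.1).getD i 0 < q.1.getD i 0) → False := by
    intro x y hxy hlt hx
    refine hmin ((List.ofFn x.1, List.ofFn y.1) :: P) ⟨?_, φ, h2, ?_⟩ (item_lt P _ hx)
    · intro p hp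
      rcases List.mem_cons.1 hp with rfl | hp
      · exact ⟨x, y, rfl, hlt⟩
      · exact hP p hp
    · intro u v huv
      rcases List.mem_cons.1 huv with e | huv
      · obtain ⟨e1, e2⟩ := Prod.mk.inj e
        rw [Subtype.ext (List.ofFn_injective e1), Subtype.ext (List.ofFn_injective e2)]
        exact hxy
      · exact h3 u v huv
  rcases lexLt_trichotomy x.1 y.1 with h1 | h1 | h1
  · exact (key y x hxy.symm h1 hy2).elim
  · rw [Subtype.ext h1] at hx1
    exact (conP k P).trans hx1 ((conP k P).symm hy1)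
  · exact (key x y hxy h1 hx2).elim

lemma iso_of_ker {F A B : Type} [Add F] [Add A] [Add B] (φ : F →ₙ+ A) (ψ : F →ₙ+ B)
    (h1 : Function.Surjective φ) (h2 : Function.Surjective ψ)
    (h : ∀ a b, φ a = φ b ↔ ψ a = ψ b) : Nonempty (A ≃+ B) := by
  have e1 := Function.surjInv_eq h1
  have e2 := Function.surjInv_eq h2
  refine ⟨⟨⟨fun a => ψ (Function.surjInv h1 a), fun b => φ (Function.surjInv h2 b), ?_, ?_⟩, ?_⟩⟩
  · intro a
    conv_rhs => rw [← e1 a]
    rw [h, e2]
  · intro b
    conv_rhs => rw [← e2 b]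
    rw [← h, e1]
  · intro a b
    simp only
    rw [← map_add, ← h, map_add, e1, e1, e1]

theorem iso_of_min {A B : Type} [Add A] [Add B] {k : ℕ} {P : List (List ℕ × List ℕ)}
    (hA : Valid A k P) (hB : Valid B k P)
    (mA : ∀ P', Valid A k P' → ¬ cnf (item k P') < cnf (item k P))
    (mB : ∀ P', Valid B k P' → ¬ cnf (item k P') < cnf (item k P)) : Nonempty (A ≃+ B) := by
  obtain ⟨hP, φ, a2, a3⟩ := hA
  obtain ⟨-, ψ, b2, b3⟩ := hB
  exact iso_of_ker φ ψ a2 b2 fun a b => by
    rw [ker_eq_of_min hP φ a2 a3 mA, ker_eq_of_min hP ψ b2 b3 mB]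

end Pool.Agent.P.MP_00bf54_lc
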